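import Pool.Agent.H84.ND.Targets3

/-!
# MP_70ba79_ag, board ndc_modules, row BZL: a linear form is a nonzerodivisor modulo two forms
without common zero on the line
-/

set_option autoImplicit false

open MvPolynomial SC Pool.Agent.H27.LV Pool.Agent.H84.SM Pool.Agent.H84.ND

namespace Pool.Agent.H96.ND

section

variable {k : Type} [Field k]

/-- a polynomial in two variables without zeros except possibly `0` is a unit -/
theorem unit_of_nozero [IsAlgClosed k] {h : MvPolynomial (Fin 2) k}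
    (hz : ∀ s : Fin 2 → k, s ≠ 0 → eval s h ≠ 0) : IsUnit h := by
  have hX : ∀ i : Fin 2, ∃ n : ℕ, h ∣ (X i : MvPolynomial (Fin 2) k) ^ n := by
    intro i
    have h1 : (X i : MvPolynomial (Fin 2) k) ∈
        vanishingIdeal k (zeroLocus k (Ideal.span {h})) := by
      rw [mem_vanishingIdeal_iff]
      intro s hs
      have h2 : eval s h = 0 := by
        have h3 := (mem_zeroLocus_iff.1 hs) h (Ideal.mem_span_singleton_self h)
        exact h3
      have h4 : s = 0 := by
        by_contra hne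
        exact hz s hne h2
      rw [h4, aeval_X]
      rfl
    rw [vanishingIdeal_zeroLocus_eq_radical] at h1
    obtain ⟨n, hn⟩ := Ideal.mem_radical_iff.1 h1
    exact ⟨n, Ideal.mem_span_singleton.1 hn⟩
  obtain ⟨n, hn⟩ := hX 0
  obtain ⟨m, hm⟩ := hX 1
  have hp : Prime (X 0 : MvPolynomial (Fin 2) k) := MvPolynomial.X_prime
  obtain ⟨i, -, hi⟩ := (dvd_prime_pow hp n).1 hn
  rcases Nat.eq_zero_or_pos i with h0 | h0
  · rw [h0, pow_zero] at hi
    exact (associated_one_iff_isUnit).1 hi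
  · exfalso
    have h1 : (X 0 : MvPolynomial (Fin 2) k) ∣ X 1 ^ m :=
      (dvd_pow_self _ h0.ne').trans (hi.symm.dvd.trans hm)
    have h2 := hp.dvd_of_dvd_pow h1
    have h3 := map_dvd (eval (fun i : Fin 2 => if i = 0 then (0 : k) else 1)) h2
    rw [eval_X, eval_X, if_pos rfl, if_neg (by decide), zero_dvd_iff] at h3
    exact one_ne_zero h3

/-- the coordinates on the line -/
noncomputable def lrho (c : Fin 3 → k) (i0 : Fin 3) :
    MvPolynomial (Fin 3) k →ₐ[k] MvPolynomial (Fin 2) k :=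
  aeval ((i0.insertNth (α := fun _ => MvPolynomial (Fin 2) k)
    (-(C (c i0)⁻¹) * ∑ m : Fin 2, C (c (i0.succAbove m)) * X m) (fun m => X m)) :
    Fin 3 → MvPolynomial (Fin 2) k)

/-- lifting -/
noncomputable def lsig (i0 : Fin 3) : MvPolynomial (Fin 2) k →ₐ[k] MvPolynomial (Fin 3) k :=
  rename i0.succAbove

theorem lrho_lsig (c : Fin 3 → k) (i0 : Fin 3) (w : MvPolynomial (Fin 2) k) :
    lrho c i0 (lsig i0 w) = w := by
  have h : (lrho c i0).comp (lsig i0) = AlgHom.id k _ := by
    apply MvPolynomial.algHom_ext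
    intro m
    rw [AlgHom.comp_apply, lsig, rename_X, lrho, aeval_X, Fin.insertNth_apply_succAbove]
    rfl
  exact DFunLike.congr_fun h w

theorem lform_eq (c : Fin 3 → k) (i0 : Fin 3) : (∑ i, C (c i) * X i : MvPolynomial (Fin 3) k) =
    C (c i0) * X i0 + ∑ m : Fin 2, C (c (i0.succAbove m)) * X (i0.succAbove m) :=
  Fin.sum_univ_succAbove _ i0

theorem lrho_l (c : Fin 3 → k) {i0 : Fin 3} (hc : c i0 ≠ 0) :
    lrho c i0 (∑ i, C (c i) * X i) = 0 := by
  rw [lform_eq c i0, map_add, map_mul, map_sum]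
  have h1 : lrho c i0 (X i0) = -(C (c i0)⁻¹) * ∑ m : Fin 2, C (c (i0.succAbove m)) * X m := by
    rw [lrho, aeval_X, Fin.insertNth_apply_same]
  have h2 : ∀ m : Fin 2, lrho c i0 (C (c (i0.succAbove m)) * X (i0.succAbove m)) =
      C (c (i0.succAbove m)) * X m := by
    intro m
    rw [map_mul, lrho, aeval_X, Fin.insertNth_apply_succAbove, aeval_C]
    rfl
  have h3 : lrho c i0 (C (c i0)) = C (c i0) := by
    rw [lrho, aeval_C]
    rfl
  rw [h1, h3, Finset.sum_congr rfl fun m _ => h2 m]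
  have h4 : (C (c i0) * C (c i0)⁻¹ : MvPolynomial (Fin 2) k) = 1 := by
    rw [← C_mul, mul_inv_cancel₀ hc, C_1]
  linear_combination (-(∑ m : Fin 2, C (c (i0.succAbove m)) * X m : MvPolynomial (Fin 2) k)) * h4

/-- everything is determined on the line up to multiples of the linear form -/
theorem l_dvd_sub (c : Fin 3 → k) {i0 : Fin 3} (hc : c i0 ≠ 0) (f : MvPolynomial (Fin 3) k) :
    (∑ i, C (c i) * X i : MvPolynomial (Fin 3) k) ∣ f - lsig i0 (lrho c i0 f) := by
  rw [← Ideal.mem_span_singleton, ← Ideal.Quotient.mk_eq_mk_iff_sub_mem]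
  set I : Ideal (MvPolynomial (Fin 3) k) := Ideal.span {∑ i, C (c i) * X i} with hI
  have h : (Ideal.Quotient.mkₐ k I) =
      (Ideal.Quotient.mkₐ k I).comp ((lsig i0).comp (lrho c i0)) := by
    apply MvPolynomial.algHom_ext
    intro i
    show Ideal.Quotient.mk I (X i) = Ideal.Quotient.mk I (lsig i0 (lrho c i0 (X i)))
    rw [Ideal.Quotient.mk_eq_mk_iff_sub_mem]
    rcases Fin.eq_self_or_eq_succAbove i0 i with h0 | ⟨m, h0⟩
    · rw [h0]
      have h1 : lrho c i0 (X i0) =
          -(C (c i0)⁻¹) * ∑ m : Fin 2, C (c (i0.succAbove m)) * X m := by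
        rw [lrho, aeval_X, Fin.insertNth_apply_same]
      have h2 : lsig i0 (lrho c i0 (X i0)) = -(C (c i0)⁻¹) *
          ∑ m : Fin 2, C (c (i0.succAbove m)) * X (i0.succAbove m) := by
        rw [h1, map_mul, map_neg, map_sum]
        have h3 : ∀ z : k, lsig i0 (C z) = C z := fun z => by rw [lsig, rename_C]
        rw [h3]
        congr 1
        refine Finset.sum_congr rfl fun m _ => ?_
        rw [map_mul, h3, lsig, rename_X]
      rw [h2]
      have h4 : (C (c i0)⁻¹ * C (c i0) : MvPolynomial (Fin 3) k) = 1 := by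
        rw [← C_mul, inv_mul_cancel₀ hc, C_1]
      have h5 : X i0 - -(C (c i0)⁻¹) *
          ∑ m : Fin 2, C (c (i0.succAbove m)) * X (i0.succAbove m) =
          C (c i0)⁻¹ * ∑ i, C (c i) * X i := by
        rw [lform_eq c i0]
        linear_combination (-(X i0 : MvPolynomial (Fin 3) k)) * h4
      rw [h5]
      exact I.mul_mem_left _ (Ideal.mem_span_singleton_self _)
    · rw [h0]
      have h1 : lsig i0 (lrho c i0 (X (i0.succAbove m))) = X (i0.succAbove m) := by
        rw [lrho, aeval_X, Fin.insertNth_apply_succAbove, lsig, rename_X]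
      rw [h1, sub_self]
      exact I.zero_mem
  exact DFunLike.congr_fun h f

/-- the point of the line with given coordinates -/
theorem eval_lrho (c : Fin 3 → k) {i0 : Fin 3} (hc : c i0 ≠ 0) (t : Fin 2 → k) (ht : t ≠ 0) :
    ∃ s : Fin 3 → k, s ≠ 0 ∧ eval s (∑ i, C (c i) * X i) = 0 ∧
      ∀ f, eval t (lrho c i0 f) = eval s f := by
  let s : Fin 3 → k := fun i => eval t (lrho c i0 (X i))
  have hf : ∀ f, eval t (lrho c i0 f) = eval s f := by
    intro f
    have h : ((aeval t : MvPolynomial (Fin 2) k →ₐ[k] k).comp (lrho c i0)) = aeval s := by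
      apply MvPolynomial.algHom_ext
      intro i
      rw [AlgHom.comp_apply, aeval_X]
      rfl
    have h1 := DFunLike.congr_fun h f
    exact h1
  refine ⟨s, fun h0 => ht ?_, ?_, hf⟩
  · funext m
    have h1 : s (i0.succAbove m) = t m := by
      show eval t (lrho c i0 (X (i0.succAbove m))) = t m
      rw [lrho, aeval_X, Fin.insertNth_apply_succAbove, eval_X]
    rw [← h1, h0]
    rfl
  · rw [← hf, lrho_l c hc, map_zero]

end

theorem pf_BZL : T_BZL := by
  intro k _ _ _ H1 H2 ℓ a b _ _ hℓ hℓ0 hz f hf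
  -- the linear form
  have h1 : ℓ ∈ Submodule.span k (Set.range (X : Fin 3 → MvPolynomial (Fin 3) k)) := by
    rw [← homogeneousSubmodule_one_eq_span_X]
    exact hℓ
  obtain ⟨c, hc⟩ := (Submodule.mem_span_range_iff_exists_fun k).1 h1
  have hc' : ℓ = ∑ i, C (c i) * X i := by
    rw [← hc]
    exact Finset.sum_congr rfl fun i _ => smul_eq_C_mul _ _
  obtain ⟨i0, hi0⟩ : ∃ i0, c i0 ≠ 0 := by
    by_contra hne
    push Not at hne
    apply hℓ0
    rw [hc']
    exact Finset.sum_eq_zero fun i _ => by rw [hne i, C_0, zero_mul]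
  have hρℓ : lrho c i0 ℓ = 0 := by
    rw [hc']
    exact lrho_l c hi0
  have hker : ∀ g, lrho c i0 g = 0 → ℓ ∣ g := by
    intro g hg
    have h2 := l_dvd_sub c hi0 g
    rw [hg, map_zero, sub_zero, ← hc'] at h2
    exact h2
  -- relatively prime
  have hrel : IsRelPrime (lrho c i0 H1) (lrho c i0 H2) := by
    intro h hd1 hd2
    by_contra hu
    have h3 : ∃ t : Fin 2 → k, t ≠ 0 ∧ eval t h = 0 := by
      by_contra hne
      push Not at hne
      exact hu (unit_of_nozero hne)
    obtain ⟨t, ht, hth⟩ := h3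
    obtain ⟨s, hs, hsℓ, hsf⟩ := eval_lrho c hi0 t ht
    have e1 : eval s H1 = 0 := by
      rw [← hsf]
      obtain ⟨q, hq⟩ := hd1
      rw [hq, map_mul, hth, zero_mul]
    have e2 : eval s H2 = 0 := by
      rw [← hsf]
      obtain ⟨q, hq⟩ := hd2
      rw [hq, map_mul, hth, zero_mul]
    rw [← hc'] at hsℓ
    exact hz s hs hsℓ e1 e2
  obtain ⟨u, v, huv⟩ := Ideal.mem_span_pair.1 hf
  have h4 : lrho c i0 u * lrho c i0 H1 + lrho c i0 v * lrho c i0 H2 = 0 := by
    rw [← map_mul, ← map_mul, ← map_add, huv, map_mul, hρℓ, zero_mul]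
  obtain ⟨w, hw1, hw2⟩ : ∃ w, lrho c i0 u = w * lrho c i0 H2 ∧
      lrho c i0 v = -(w * lrho c i0 H1) := by
    by_cases h0 : lrho c i0 H2 = 0
    · have h5 : IsUnit (lrho c i0 H1) := hrel (dvd_refl _) (h0 ▸ dvd_zero _)
      obtain ⟨y, hy⟩ := h5.exists_left_inv
      refine ⟨-(lrho c i0 v * y), ?_, ?_⟩
      · rw [h0, mul_zero, add_zero] at h4
        rw [h0, mul_zero]
        rcases mul_eq_zero.1 h4 with h6 | h6
        · exact h6
        · exact absurd h6 h5.ne_zero
      · linear_combination (-(lrho c i0 v)) * hy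
    · have h5 : lrho c i0 H2 ∣ lrho c i0 u * lrho c i0 H1 := by
        refine ⟨-(lrho c i0 v), ?_⟩
        linear_combination h4
      obtain ⟨w, hw⟩ := hrel.symm.dvd_of_dvd_mul_right h5
      refine ⟨w, by rw [hw, mul_comm], ?_⟩
      have h6 : lrho c i0 H2 * (lrho c i0 v + w * lrho c i0 H1) = 0 := by
        rw [hw] at h4
        linear_combination h4
      rcases mul_eq_zero.1 h6 with h7 | h7
      · exact absurd h7 h0
      · linear_combination h7
  obtain ⟨u', hu'⟩ := hker (u - lsig i0 w * H2) (by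
    rw [map_sub, map_mul, lrho_lsig, hw1, sub_self])
  obtain ⟨v', hv'⟩ := hker (v + lsig i0 w * H1) (by
    rw [map_add, map_mul, lrho_lsig, hw2, neg_add_cancel])
  rw [Ideal.mem_span_pair]
  refine ⟨u', v', mul_left_cancel₀ hℓ0 ?_⟩
  linear_combination (-H1) * hu' + (-H2) * hv' + huv

end Pool.Agent.H96.ND
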