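import Pool.Agent.H84.ND.Targets2

/-!
# MP_70ba79_ag, board ndc_modules, row FTP: a form of low degree through given points
-/

set_option autoImplicit false

open MvPolynomial SC Pool.Agent.H27.LV Pool.Agent.H84.SM Pool.Agent.H84.ND

namespace Pool.Agent.H96.ND

/-- the exponents of degree `r` -/
noncomputable def ex3 (r : ℕ) (e : Σ _ : ℕ, ℕ) : Fin 3 →₀ ℕ :=
  Finsupp.single 0 e.2 + Finsupp.single 1 (e.1 - e.2) + Finsupp.single 2 (r - e.1)

/-- the index set of the exponents of degree `r` -/
def E3 (r : ℕ) : Finset (Σ _ : ℕ, ℕ) :=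
  (Finset.range (r + 1)).sigma fun i => Finset.range (i + 1)

theorem card_E3 (r : ℕ) : (E3 r).card = (r + 2).choose 2 := by
  unfold E3
  rw [Finset.card_sigma]
  induction r with
  | zero => rfl
  | succ r ih =>
    rw [Finset.sum_range_succ, ih, Finset.card_range]
    have h : (r + 1 + 2).choose 2 = (r + 2).choose 1 + (r + 2).choose 2 :=
      Nat.choose_succ_succ' (r + 2) 1
    rw [h, Nat.choose_one_right]
    omega

theorem ex3_inj (r : ℕ) : Set.InjOn (ex3 r) (E3 r) := by
  rintro ⟨i, j⟩ h ⟨i', j'⟩ h' heq
  have hm : i < r + 1 ∧ j < i + 1 := by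
    have := h
    simp only [E3, Finset.coe_sigma, Set.mem_sigma_iff, Finset.coe_range, Set.mem_Iio] at this
    exact this
  have hm' : i' < r + 1 ∧ j' < i' + 1 := by
    have := h'
    simp only [E3, Finset.coe_sigma, Set.mem_sigma_iff, Finset.coe_range, Set.mem_Iio] at this
    exact this
  have h0 : j = j' := by
    have := DFunLike.congr_fun heq 0
    simpa [ex3] using this
  have h2 : r - i = r - i' := by
    have := DFunLike.congr_fun heq 2
    simpa [ex3] using this
  have h3 : i = i' := by omega
  subst h0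
  subst h3
  rfl

theorem ex3_deg {r : ℕ} {e : Σ _ : ℕ, ℕ} (h : e ∈ E3 r) : (ex3 r e).degree = r := by
  obtain ⟨i, j⟩ := e
  have hm : i < r + 1 ∧ j < i + 1 := by
    simpa [E3] using h
  unfold ex3
  rw [map_add, map_add, Finsupp.degree_single, Finsupp.degree_single, Finsupp.degree_single]
  show j + (i - j) + (r - i) = r
  omega

theorem pf_FTP : Pool.Agent.H84.ND.T_FTP := by
  intro k _ T r hT
  have hlt : Module.finrank k (T → k) < Module.finrank k (E3 r → k) := by
    rw [Module.finrank_fintype_fun_eq_card, Module.finrank_fintype_fun_eq_card,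
      Fintype.card_coe, Fintype.card_coe, card_E3]
    exact hT
  let F : (E3 r → k) →ₗ[k] MvPolynomial (Fin 3) k :=
    { toFun := fun c => ∑ e : E3 r, monomial (ex3 r e) (c e)
      map_add' := fun a b => by
        simp only [Pi.add_apply, map_add, Finset.sum_add_distrib]
      map_smul' := fun a b => by
        simp only [Pi.smul_apply, Finset.smul_sum, RingHom.id_apply, smul_monomial] }
  let L : (E3 r → k) →ₗ[k] (T → k) :=
    { toFun := fun c s => eval (s : Fin 3 → k) (F c)
      map_add' := fun a b => by
        funext s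
        simp only [map_add, Pi.add_apply]
      map_smul' := fun a b => by
        funext s
        simp only [map_smul, smul_eval, Pi.smul_apply, RingHom.id_apply, smul_eq_mul] }
  have hker := LinearMap.ker_ne_bot_of_finrank_lt (f := L) hlt
  obtain ⟨c, hc, hc0⟩ := (Submodule.ne_bot_iff _).1 hker
  have hcoef : ∀ e : E3 r, coeff (ex3 r e) (F c) = c e := by
    intro e
    show coeff (ex3 r e) (∑ e' : E3 r, monomial (ex3 r e') (c e')) = c e
    rw [coeff_sum, Finset.sum_eq_single e]
    · rw [coeff_monomial, if_pos rfl]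
    · intro e' _ hne
      rw [coeff_monomial, if_neg]
      intro h
      exact hne (Subtype.ext (ex3_inj r e'.2 e.2 h))
    · intro h
      exact absurd (Finset.mem_univ _) h
  refine ⟨F c, fun h0 => hc0 ?_, ?_, fun s hs => ?_⟩
  · funext e
    rw [← hcoef e, h0, coeff_zero]
    rfl
  · show (∑ e : E3 r, monomial (ex3 r e) (c e)).IsHomogeneous r
    refine MvPolynomial.IsHomogeneous.sum _ _ _ fun e _ => ?_
    exact isHomogeneous_monomial _ (ex3_deg e.2)
  · exact congrFun (LinearMap.mem_ker.1 hc) ⟨s, hs⟩

end Pool.Agent.H96.ND
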